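import Pool.Agent.PDM.Stmts

/-! PDM, module PAR (helper10). -/

set_option autoImplicit false

namespace Pool.Agent.PDM.H10

open Pool.Agent.PDN Pool.Agent.PDM Finset

theorem exists_equiv {α β : Type} [Fintype α] [Fintype β] (f : α → ℕ) (g : β → ℕ)
    (h : (univ : Finset α).val.map f = (univ : Finset β).val.map g) :
    ∃ e : α ≃ β, ∀ a, g (e a) = f a := by
  classical
  have h1 : ∀ c, Fintype.card {a // f a = c} = Fintype.card {b // g b = c} := by
    intro c
    rw [Fintype.card_subtype, Fintype.card_subtype]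
    have h2 := congrArg (Multiset.count c) h
    rw [Multiset.count_map, Multiset.count_map] at h2
    have e1 : (univ.filter (fun a => f a = c)).card =
        Multiset.card (Multiset.filter (fun a => c = f a) (univ : Finset α).val) := by
      rw [Finset.card_def, Finset.filter_val]
      congr 1
      exact Multiset.filter_congr (fun a _ => eq_comm)
    have e2 : (univ.filter (fun b => g b = c)).card =
        Multiset.card (Multiset.filter (fun b => c = g b) (univ : Finset β).val) := by
      rw [Finset.card_def, Finset.filter_val]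
      congr 1
      exact Multiset.filter_congr (fun a _ => eq_comm)
    rw [e1, e2, h2]
  exact ⟨Equiv.ofFiberEquiv (fun c => Fintype.equivOfCardEq (h1 c)),
    fun a => Equiv.ofFiberEquiv_map _ a⟩

theorem map_sum {α β : Type} [Fintype α] [Fintype β] (f : α → ℕ) (g : β → ℕ) :
    (univ : Finset (α ⊕ β)).val.map (Sum.elim f g) =
      (univ : Finset α).val.map f + (univ : Finset β).val.map g := by
  have h : (univ : Finset (α ⊕ β)).val = (univ : Finset α).val.map Sum.inl +
      (univ : Finset β).val.map Sum.inr := rfl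
  rw [h, Multiset.map_add, Multiset.map_map, Multiset.map_map]
  rfl

theorem map_rep (m a : ℕ) : (univ : Finset (Fin m)).val.map (fun _ => a) =
    Multiset.replicate m a := by
  rw [Multiset.map_const']
  congr 1
  simp

theorem par (eu3 : Eu3Stmt) (rm3 : Rm3Stmt) : ParStmt := by
  classical
  intro ι _ d mk m n q hd hc hs hn hmk hreal
  obtain ⟨V, _, G, hG, hdeg⟩ := hreal
  -- the equivalence
  let g : (ι ⊕ Fin m) ⊕ Fin n → ℕ :=
    Sum.elim (Sum.elim (fun i => 2 * d i - (if mk i then 1 else 0)) (fun _ => 8)) (fun _ => 3)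
  obtain ⟨E, hE⟩ := exists_equiv (fun v : V => Nat.card (G.neighborSet v)) g (by
    rw [hdeg]
    simp only [g]
    rw [map_sum, map_sum, map_rep, map_rep])
  have hg3 : ∀ z, 3 ≤ g z := by
    rintro ((i | j) | k)
    · simp only [g, Sum.elim_inl]
      have := hd i
      split_ifs <;> omega
    · simp [g]
    · simp [g]
  have hmin : ∀ v, 3 ≤ Nat.card (G.neighborSet v) := fun v => by
    have h1 : g (E v) = Nat.card (G.neighborSet v) := hE v
    rw [← h1]; exact hg3 _
  have hcardV : Fintype.card V = Fintype.card ι + m + n := by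
    rw [Fintype.card_congr E, Fintype.card_sum, Fintype.card_sum, Fintype.card_fin,
      Fintype.card_fin]
  -- the sum of the degrees
  have hmk' : ∑ i, (if mk i then 1 else 0 : ℕ) = 3 * q := by
    rw [← hmk, Nat.card_eq_fintype_card, Fintype.card_subtype, card_filter]
  have hsub : ∑ i, (2 * d i - (if mk i then 1 else 0)) + 3 * q = 2 * ∑ i, d i := by
    rw [← hmk', ← sum_add_distrib, mul_sum]
    refine sum_congr rfl (fun i _ => ?_)
    have := hd i
    split_ifs <;> omega
  have hsum : ∑ v, Nat.card (G.neighborSet v) = ∑ z, g z := by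
    rw [← Equiv.sum_comp E]
    exact sum_congr rfl (fun v _ => (hE v).symm)
  have hsumg : ∑ z, g z = ∑ i, (2 * d i - (if mk i then 1 else 0)) + m * 8 + n * 3 := by
    rw [Fintype.sum_sum_type, Fintype.sum_sum_type]
    simp [g]
  obtain ⟨T, hTG, hconn, htight, hTdeg⟩ := eu3 V G hG hmin (by
    rw [hsum, hsumg, hcardV]; omega)
  have hcm : Fintype.card ι ≤ ∑ i, d i := by
    have : ∑ i : ι, 1 ≤ ∑ i, d i := sum_le_sum (fun i _ => by have := hd i; omega)
    simpa using this
  have h5c : 5 * Fintype.card ι ≤ ∑ i, d i := by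
    have : ∑ i : ι, 5 ≤ ∑ i, d i := sum_le_sum (fun i _ => hd i)
    simpa [mul_comm] using this
  obtain ⟨T', hconn', htight', hsubf, hdeg', hfree⟩ := rm3 V T (hTG ▸ hconn) htight (by omega)
  -- the degrees of `T`
  have hTE : ∀ v, T.deg v = g (E v) := fun v => (hTdeg v).trans (hE v).symm
  have hne3 : ∀ v, T.deg v ≠ 3 ↔ ∃ z, E v = Sum.inl z := by
    intro v
    rw [hTE]
    rcases hv : E v with (i | j) | k
    · simp only [g, Sum.elim_inl]
      have := hd i
      constructor
      · intro _; exact ⟨_, rfl⟩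
      · intro _; split_ifs <;> omega
    · simp [g]
    · simp [g]
  -- the equivalence `W ≃ ι ⊕ Fin m`
  let F : ι ⊕ Fin m → {v : V // T.deg v ≠ 3} := fun z => ⟨E.symm (Sum.inl z), (hne3 _).2 ⟨z, E.apply_symm_apply _⟩⟩
  have hFinj : Function.Injective F := by
    intro z z' h
    have h1 := congrArg (fun w : {v : V // T.deg v ≠ 3} => E w.1) h
    simp only [F, Equiv.apply_symm_apply, Sum.inl.injEq] at h1
    exact h1
  have hFsurj : Function.Surjective F := by
    rintro ⟨v, hv⟩
    obtain ⟨z, hz⟩ := (hne3 v).1 hv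
    refine ⟨z, Subtype.ext ?_⟩
    simp only [F]
    rw [← hz, Equiv.symm_apply_apply]
  have hF1 : ∀ z, T.deg (F z).1 = g (Sum.inl z) := by
    intro z
    rw [hTE]
    simp only [F, Equiv.apply_symm_apply]
  have hcardW : Nat.card {v : V // T.deg v ≠ 3} = Fintype.card ι + m := by
    rw [Nat.card_eq_fintype_card, ← Fintype.card_congr (Equiv.ofBijective F ⟨hFinj, hFsurj⟩),
      Fintype.card_sum, Fintype.card_fin]
  have hcard3 : Nat.card {v : V // T.deg v = 3} = n := by
    have h1 : Nat.card {v : V // T.deg v = 3} + Nat.card {v : V // T.deg v ≠ 3} = Fintype.card V := by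
      rw [← Nat.card_eq_fintype_card, ← Nat.card_congr (Equiv.sumCompl (fun v => T.deg v = 3)),
        Nat.card_sum]
    omega
  -- the free faces
  let u : {v : V // T.deg v ≠ 3} → ℕ := fun v => Nat.card {a : {v : V // T.deg v ≠ 3} // ∃ b, T.deg b ≠ 3 ∧ T.f v a b}
  have hS : Nat.card {p : {v : V // T.deg v ≠ 3} × {v : V // T.deg v ≠ 3} // ∃ b, T.deg b ≠ 3 ∧ T.f p.1 p.2 b} = 3 * q := by
    have h1 := hfree
    rw [hcard3, hcardW] at h1
    omega
  have hsumu : ∑ v, u v = 3 * q := by
    rw [← hS, Nat.card_congr (Equiv.subtypeProdEquivSigmaSubtype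
      (fun (a b : {v : V // T.deg v ≠ 3}) => ∃ c, T.deg c ≠ 3 ∧ T.f a b c)), Nat.card_sigma]
  have hFe : ∑ z, u (F z) = 3 * q := by
    rw [← hsumu]
    exact Function.Bijective.sum_comp ⟨hFinj, hFsurj⟩ u
  let l : ι ⊕ Fin m → ℕ := Sum.elim (fun i => if mk i then 1 else 0) (fun _ => 0)
  have hl : ∑ z, l z = 3 * q := by
    rw [Fintype.sum_sum_type]
    simp only [l, Sum.elim_inl, Sum.elim_inr, sum_const_zero, add_zero]
    exact hmk'
  have hlu : ∀ z ∈ (univ : Finset (ι ⊕ Fin m)), l z ≤ u (F z) := by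
    intro z _
    have h1 := hdeg' (F z)
    have h2 := hF1 z
    change 2 * T'.deg (F z) = T.deg (F z).1 + u (F z) at h1
    rcases z with i | j
    · simp only [l, g, Sum.elim_inl] at h2 ⊢
      have := hd i
      by_cases hm : mk i = true
      · rw [if_pos hm] at h2 ⊢
        omega
      · rw [if_neg hm] at h2 ⊢
        omega
    · simp [l]
  have hlu' : ∀ z, l z = u (F z) := by
    intro z
    exact (Finset.sum_eq_sum_iff_of_le hlu).1 (hl.trans hFe.symm) z (mem_univ z)
  have hd1 : ∀ i, T'.deg (F (Sum.inl i)) = d i := by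
    intro i
    have h1 := hdeg' (F (Sum.inl i))
    have h2 := hF1 (Sum.inl i)
    have h3 := hlu' (Sum.inl i)
    change 2 * T'.deg (F (Sum.inl i)) = T.deg (F (Sum.inl i)).1 + u (F (Sum.inl i)) at h1
    simp only [l, g, Sum.elim_inl] at h2 h3
    have := hd i
    by_cases hm : mk i = true
    · rw [if_pos hm] at h2 h3
      omega
    · rw [if_neg hm] at h2 h3
      omega
  have hd2 : ∀ j, T'.deg (F (Sum.inr j)) = 4 := by
    intro j
    have h1 := hdeg' (F (Sum.inr j))
    have h2 := hF1 (Sum.inr j)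
    have h3 := hlu' (Sum.inr j)
    change 2 * T'.deg (F (Sum.inr j)) = T.deg (F (Sum.inr j)).1 + u (F (Sum.inr j)) at h1
    simp only [l, g, Sum.elim_inl, Sum.elim_inr] at h2 h3
    omega
  have hkey : ∀ v a : {v : V // T.deg v ≠ 3}, ∀ b : V, T.deg b ≠ 3 → T.f v a b → T'.deg v ≠ 4 := by
    intro v a b hb hf
    have h0 : 0 < u v := by
      have : Nonempty {a : {v : V // T.deg v ≠ 3} // ∃ b, T.deg b ≠ 3 ∧ T.f v a b} := ⟨⟨a, b, hb, hf⟩⟩
      exact Nat.card_pos
    obtain ⟨z, rfl⟩ := hFsurj v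
    rcases z with i | j
    · rw [hd1]
      have := hd i
      omega
    · have h3 := hlu' (Sum.inr j)
      simp only [l, Sum.elim_inr] at h3
      omega
  refine ⟨{v : V // T.deg v ≠ 3}, inferInstance, T', ⟨fun i => F (Sum.inl i), fun i i' h => Sum.inl_injective (hFinj h)⟩,
    hconn', htight', hd1, ?_, ?_⟩
  · intro v hv
    obtain ⟨z, rfl⟩ := hFsurj v
    rcases z with i | j
    · exact absurd ⟨i, rfl⟩ hv
    · exact hd2 j
  · rw [← hS]
    refine Nat.card_le_card_of_injective (fun p => ⟨p.1, ?_⟩) ?_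
    · obtain ⟨⟨v, a⟩, b, hb, hf⟩ := p
      simp only at hf ⊢
      have f1 := T.cyc hf
      have f2 := T.cyc f1
      refine ⟨⟨b, hb⟩, hsubf v a ⟨b, hb⟩ hf, hkey v a b hb hf, hkey a ⟨b, hb⟩ v.1 v.2 f1,
        hkey ⟨b, hb⟩ v a.1 a.2 f2⟩
    · intro p p' h
      simp only [Subtype.mk.injEq] at h
      exact Subtype.ext h

end Pool.Agent.PDM.H10
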